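import Pool.Agent.Lib_MP_9e7d46_co.Hakimi

/-!
The pairing statement (LC') for weighted graphs with a vertex function (MP_9e7d46_co).
-/

set_option autoImplicit false
set_option linter.unusedSectionVars false

namespace LC9e

open Finset Classical Pool.Agent.DJ9e

universe u

variable {V : Type u} [Fintype V]

/-- weight of the edges across `X` -/
noncomputable def hx (h : V → V → ℤ) (X : Set V) : ℤ :=
  ∑ u, ∑ v, if u ∈ X ∧ v ∉ X then h u v else 0

/-- number of adjacent pairs across `X` -/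
noncomputable def sx (h : V → V → ℤ) (X : Set V) : ℤ :=
  ∑ u, ∑ v, if u ∈ X ∧ v ∉ X ∧ 0 < h u v then 1 else 0

/-- An instance of (LC'): nonnegative symmetric weights `h` (the diagonal is ignored), a vertex
function `b` with total `0`, and the cut conditions. -/
structure Inst (k : ℕ) (h : V → V → ℤ) (b : V → ℤ) : Prop where
  symm : ∀ u v, h u v = h v u
  nn : ∀ u v, 0 ≤ h u v
  tot : xs b Set.univ = 0
  cut : ∀ X : Set V, X.Nonempty → Xᶜ.Nonempty → 2 * (k : ℤ) + |xs b X| ≤ hx h X
  scut : ∀ X : Set V, X.Nonempty → Xᶜ.Nonempty → sx h X + |xs b X| ≤ hx h X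

/-- `μ` is a good pairing of the instance. -/
structure GoodP (k : ℕ) (h : V → V → ℤ) (b : V → ℤ) (μ : V → V) : Prop where
  invol : ∀ u, μ (μ u) = u
  odd : ∀ u, μ u ≠ u ↔ Odd (hx h {u} + b u)
  bd : ∀ X : Set V, X.Nonempty → Xᶜ.Nonempty →
    (dM μ X : ℤ) + 2 * k + |xs b X| ≤ hx h X

/-- the statement (LC') for `k`. -/
def LCPairing (k : ℕ) : Prop :=
  ∀ (V : Type) [Fintype V] (h : V → V → ℤ) (b : V → ℤ), Inst k h b → ∃ μ : V → V, GoodP k h b μ

end LC9e
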