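import Pool.Agent.Lib_MP_9e7d46_lc.Defs
import Pool.Agent.Lib_MP_9e7d46_lk.Final

/-!
(LC') implies (P_sh), and (P_sh) implies two disjoint `k`-dijoins.
-/

set_option autoImplicit false
set_option linter.unusedSectionVars false

namespace LC9e

open Finset Classical Pool.Agent.DJ9e Pool.Agent.LK9e

/-- (P_sh) for `k`: a pairing of the odd vertices which is small on all shores. -/
def PshPairing (k : ℕ) : Prop :=
  ∀ (V A : Type) [Fintype V] [Fintype A] (s t : A → V),
    (∀ U : Set V, U.Nonempty → Uᶜ.Nonempty → Sh s t U → 2 * k ≤ dd s t U) →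
    ∃ μ : V → V, (∀ u, μ (μ u) = u) ∧ (∀ u, μ u ≠ u ↔ Odd (dd s t {u})) ∧
      ∀ U : Set V, U.Nonempty → Uᶜ.Nonempty → Sh s t U → dM μ U + 2 * k ≤ dd s t U

section psh

variable {V A : Type} [Fintype V] [Fintype A]

/-- Eulerian orientation of `G + M`. -/
theorem orient_of_psh (s t : A → V) (k : ℕ) (μ : V → V) (hi : ∀ u, μ (μ u) = u)
    (ho : ∀ u, μ u ≠ u ↔ Odd (dd s t {u}))
    (hb : ∀ U : Set V, U.Nonempty → Uᶜ.Nonempty → Sh s t U → dM μ U + 2 * k ≤ dd s t U) :
    ∃ O : A → Bool, ∀ U : Set V, U.Nonempty → Uᶜ.Nonempty → Sh s t U → k ≤ inn s t O U := by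
  have hdd : ∀ U : Set V, dd (ms μ) (mt μ) U = dM μ U := dd_pairs μ hi
  obtain ⟨O2, hO2⟩ := hakimi (Sum.elim s (ms μ)) (Sum.elim t (mt μ)) (fun _ => 0) (by
      intro u
      rw [dd_sum, hdd, dM_single, zero_add]
      by_cases hv : μ u = u
      · rw [if_pos hv, add_zero]
        have h1 : ¬ Odd (dd s t {u}) := fun h' => (ho u).mpr h' hv
        rw [Nat.not_odd_iff_even] at h1
        exact_mod_cast h1
      · rw [if_neg hv]
        have h1 : Odd (dd s t {u}) := (ho u).mp hv
        have h2 : Even (dd s t {u} + 1) := h1.add_one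
        exact_mod_cast h2) (by simp [xs]) (by
      intro U
      have : xs (fun _ : V => (0 : ℤ)) U = 0 := by simp [xs]
      rw [this]
      positivity)
  refine ⟨fun a => O2 (Sum.inl a), fun U hU hUc hS => ?_⟩
  have hz : xs (fun _ : V => (0 : ℤ)) U = 0 := by simp [xs]
  have h1 := hO2 U
  rw [hz, inn_sum, inn_sum] at h1
  have h2 := inn_le_dd (ms μ) (mt μ) (fun m => O2 (Sum.inr m)) U
  rw [hdd] at h2
  have h3 := inn_add_compl s t (fun a => O2 (Sum.inl a)) U
  have h4 := hb U hU hUc hS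
  have h5 := (abs_le.1 h2).2
  have h6 := (abs_le.1 h2).1
  push_cast at h1
  zify at h3 h4 ⊢
  linarith

end psh

/-- (P_sh) implies the two disjoint `k`-dijoins of the problem. -/
theorem dijoins_of_psh (k : ℕ) (H : PshPairing k) (V E : Type) [Fintype V] [Fintype E]
    (tail head : E → V)
    (h : ∀ U : Set V, U.Nonempty → U ≠ Set.univ → (∀ e, ¬ (head e ∈ U ∧ tail e ∉ U)) →
      2 * k ≤ {e : E | tail e ∈ U ∧ head e ∉ U}.ncard) :
    ∃ J₁ J₂ : Finset E, Disjoint J₁ J₂ ∧
      ∀ U : Set V, U.Nonempty → U ≠ Set.univ → (∀ e, ¬ (head e ∈ U ∧ tail e ∉ U)) →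
        k ≤ {e : E | e ∈ J₁ ∧ tail e ∈ U ∧ head e ∉ U}.ncard ∧
        k ≤ {e : E | e ∈ J₂ ∧ tail e ∈ U ∧ head e ∉ U}.ncard := by
  have h' : ∀ U : Set V, U.Nonempty → Uᶜ.Nonempty → Sh tail head U →
      2 * k ≤ dd tail head U := by
    intro U hU hUc hS
    rcases hS with hS | hS
    · have hcl : ∀ e, ¬ (head e ∈ U ∧ tail e ∉ U) := fun e he => he.2 (hS e he.1)
      rw [dd_closed tail head U hcl]
      exact h U hU (Set.nonempty_compl.1 hUc) hcl
    · have hcl : ∀ e, ¬ (head e ∈ Uᶜ ∧ tail e ∉ Uᶜ) := by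
        intro e he
        exact he.1 (hS e (by simpa using he.2))
      rw [← dd_compl, dd_closed tail head Uᶜ hcl]
      refine h Uᶜ hUc ?_ hcl
      exact Set.nonempty_compl.1 (by rwa [compl_compl])
  obtain ⟨μ, h1, h2, h3⟩ := H V E tail head h'
  obtain ⟨O, hO⟩ := orient_of_psh tail head k μ h1 h2 h3
  refine ⟨Finset.univ.filter fun e => O e = true, Finset.univ.filter fun e => O e = false,
    ?_, ?_⟩
  · rw [Finset.disjoint_filter]
    intro e _ h1 h2
    rw [h1] at h2
    exact absurd h2 (by simp)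
  · intro U hU hne hcl
    have hUc : Uᶜ.Nonempty := Set.nonempty_compl.2 hne
    have hS : Sh tail head U := Or.inl fun e he => by
      by_contra hc
      exact hcl e ⟨he, hc⟩
    refine ⟨?_, ?_⟩
    · rw [← inn_closed_true tail head O U hcl]
      exact hO Uᶜ hUc (by rwa [compl_compl]) ((Sh_compl tail head U).2 hS)
    · rw [← inn_closed_false tail head O U hcl]
      exact hO U hU hUc hS

section lc

variable {V A : Type} [Fintype V] [Fintype A]

/-- number of arcs between `u` and `v` -/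
noncomputable def mlt (s t : A → V) (u v : V) : ℤ :=
  ∑ a, if (s a = u ∧ t a = v) ∨ (s a = v ∧ t a = u) then 1 else 0

theorem mlt_symm (s t : A → V) (u v : V) : mlt s t u v = mlt s t v u := by
  unfold mlt
  refine sum_congr rfl fun a _ => ?_
  by_cases h : (s a = u ∧ t a = v) ∨ (s a = v ∧ t a = u)
  · rw [if_pos h, if_pos h.symm]
  · rw [if_neg h, if_neg (fun h' => h h'.symm)]

theorem mlt_nn (s t : A → V) (u v : V) : 0 ≤ mlt s t u v := by
  unfold mlt
  exact sum_nonneg fun a _ => by split_ifs <;> norm_num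

theorem hx_mlt (s t : A → V) (X : Set V) : hx (mlt s t) X = dd s t X := by
  unfold hx mlt dd
  push_cast
  have h1 : ∀ u v : V, (if u ∈ X ∧ v ∉ X then
      ∑ a, (if (s a = u ∧ t a = v) ∨ (s a = v ∧ t a = u) then (1 : ℤ) else 0) else 0) =
      ∑ a, (if u ∈ X ∧ v ∉ X then
        (if (s a = u ∧ t a = v) ∨ (s a = v ∧ t a = u) then (1 : ℤ) else 0) else 0) := by
    intro u v
    by_cases h : u ∈ X ∧ v ∉ X
    · simp [h]
    · simp [h]
  have h2 : ∀ u : V, (∑ v, (if u ∈ X ∧ v ∉ X then
      ∑ a, (if (s a = u ∧ t a = v) ∨ (s a = v ∧ t a = u) then (1 : ℤ) else 0) else 0)) =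
      ∑ a, ∑ v, (if u ∈ X ∧ v ∉ X then
        (if (s a = u ∧ t a = v) ∨ (s a = v ∧ t a = u) then (1 : ℤ) else 0) else 0) := by
    intro u
    rw [sum_congr rfl fun v _ => h1 u v, sum_comm]
  rw [sum_congr rfl fun u _ => h2 u, sum_comm]
  refine sum_congr rfl fun a _ => ?_
  -- a single arc
  have h3 : ∀ u v : V, (if u ∈ X ∧ v ∉ X then
        (if (s a = u ∧ t a = v) ∨ (s a = v ∧ t a = u) then (1 : ℤ) else 0) else 0) =
      (if s a = u then (if t a = v then (if u ∈ X ∧ v ∉ X then 1 else 0) else 0) else 0) +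
      (if t a = u then (if s a = v then (if u ∈ X ∧ v ∉ X then 1 else 0) else 0) else 0) := by
    intro u v
    by_cases h4 : u ∈ X ∧ v ∉ X
    · have hne : u ≠ v := by
        rintro rfl
        exact h4.2 h4.1
      by_cases h5 : s a = u <;> by_cases h6 : t a = v <;> by_cases h7 : s a = v <;>
        by_cases h8 : t a = u <;> simp_all
    · simp [h4]
  have h4 : ∀ u : V, (∑ v, (if u ∈ X ∧ v ∉ X then
        (if (s a = u ∧ t a = v) ∨ (s a = v ∧ t a = u) then (1 : ℤ) else 0) else 0)) =
      (if s a = u then (if u ∈ X ∧ t a ∉ X then 1 else 0) else 0) +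
      (if t a = u then (if u ∈ X ∧ s a ∉ X then 1 else 0) else 0) := by
    intro u
    rw [sum_congr rfl fun v _ => h3 u v, sum_add_distrib]
    congr 1
    · by_cases h : s a = u
      · simp [h]
      · simp [h]
    · by_cases h : t a = u
      · simp [h]
      · simp [h]
  rw [sum_congr rfl fun u _ => h4 u, sum_add_distrib, sum_ite_eq, sum_ite_eq]
  simp only [mem_univ, if_true]
  by_cases h5 : s a ∈ X <;> by_cases h6 : t a ∈ X <;> simp [h5, h6]

theorem hx_mul (c : ℤ) (h : V → V → ℤ) (X : Set V) :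
    hx (fun u v => c * h u v) X = c * hx h X := by
  unfold hx
  rw [mul_sum]
  refine sum_congr rfl fun u _ => ?_
  rw [mul_sum]
  refine sum_congr rfl fun v _ => ?_
  split_ifs <;> ring

theorem sx_le_hx (h : V → V → ℤ) (hn : ∀ u v, 0 ≤ h u v) (X : Set V) : sx h X ≤ hx h X := by
  unfold sx hx
  refine sum_le_sum fun u _ => sum_le_sum fun v _ => ?_
  by_cases h1 : u ∈ X ∧ v ∉ X
  · rw [if_pos h1]
    split_ifs with h2
    · have := h2.2.2
      linarith
    · exact hn u v
  · rw [if_neg h1, if_neg (fun h2 => h1 ⟨h2.1, h2.2.1⟩)]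

theorem sx_mul (c : ℤ) (hc : 0 < c) (h : V → V → ℤ) (X : Set V) :
    sx (fun u v => c * h u v) X = sx h X := by
  unfold sx
  refine sum_congr rfl fun u _ => sum_congr rfl fun v _ => ?_
  have : 0 < c * h u v ↔ 0 < h u v := by
    constructor
    · intro h1
      by_contra h2
      have : c * h u v ≤ 0 := mul_nonpos_of_nonneg_of_nonpos hc.le (not_lt.1 h2)
      linarith
    · exact fun h1 => mul_pos hc h1
  simp only [this]

/-- in-degree minus out-degree -/
noncomputable def bal' (s t : A → V) (v : V) : ℤ :=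
  ∑ a, ((if t a = v then 1 else 0) - (if s a = v then 1 else 0))

theorem xs_bal' (s t : A → V) (U : Set V) :
    xs (bal' s t) U = ∑ a, ((if t a ∈ U then 1 else 0) - (if s a ∈ U then 1 else 0)) := by
  unfold xs bal'
  have h1 : ∀ v, (if v ∈ U then ∑ a, ((if t a = v then (1 : ℤ) else 0) -
      (if s a = v then 1 else 0)) else 0) =
      ∑ a, ((if t a = v then (if v ∈ U then 1 else 0) else 0) -
        (if s a = v then (if v ∈ U then 1 else 0) else 0)) := by
    intro v
    by_cases hv : v ∈ U <;> simp [hv]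
  rw [sum_congr rfl fun v _ => h1 v, sum_comm]
  refine sum_congr rfl fun a _ => ?_
  rw [sum_sub_distrib, sum_ite_eq, sum_ite_eq]
  simp

/-- arcs entering / leaving -/
noncomputable def ein (s t : A → V) (U : Set V) : ℤ :=
  ∑ a, if t a ∈ U ∧ s a ∉ U then 1 else 0

noncomputable def eout (s t : A → V) (U : Set V) : ℤ :=
  ∑ a, if s a ∈ U ∧ t a ∉ U then 1 else 0

theorem xs_bal_eq (s t : A → V) (U : Set V) : xs (bal' s t) U = ein s t U - eout s t U := by
  rw [xs_bal']
  unfold ein eout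
  rw [← sum_sub_distrib]
  refine sum_congr rfl fun a _ => ?_
  by_cases h1 : s a ∈ U <;> by_cases h2 : t a ∈ U <;> simp [h1, h2]

theorem dd_eq (s t : A → V) (U : Set V) : (dd s t U : ℤ) = ein s t U + eout s t U := by
  unfold ein eout dd
  push_cast
  rw [← sum_add_distrib]
  refine sum_congr rfl fun a _ => ?_
  by_cases h1 : s a ∈ U <;> by_cases h2 : t a ∈ U <;> simp [h1, h2]

theorem ein_nn (s t : A → V) (U : Set V) : 0 ≤ ein s t U :=
  sum_nonneg fun a _ => by split_ifs <;> norm_num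

theorem eout_nn (s t : A → V) (U : Set V) : 0 ≤ eout s t U :=
  sum_nonneg fun a _ => by split_ifs <;> norm_num

theorem ein_pos (s t : A → V) (U : Set V) (h : ¬ ∀ a, t a ∈ U → s a ∈ U) :
    1 ≤ ein s t U := by
  push Not at h
  obtain ⟨a, h1, h2⟩ := h
  unfold ein
  calc (1 : ℤ) = if t a ∈ U ∧ s a ∉ U then 1 else 0 := by rw [if_pos ⟨h1, h2⟩]
    _ ≤ _ := single_le_sum (f := fun a => if t a ∈ U ∧ s a ∉ U then (1 : ℤ) else 0)
        (fun a _ => by split_ifs <;> norm_num) (mem_univ a)

theorem eout_pos (s t : A → V) (U : Set V) (h : ¬ ∀ a, s a ∈ U → t a ∈ U) :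
    1 ≤ eout s t U := by
  push Not at h
  obtain ⟨a, h1, h2⟩ := h
  unfold eout
  calc (1 : ℤ) = if s a ∈ U ∧ t a ∉ U then 1 else 0 := by rw [if_pos ⟨h1, h2⟩]
    _ ≤ _ := single_le_sum (f := fun a => if s a ∈ U ∧ t a ∉ U then (1 : ℤ) else 0)
        (fun a _ => by split_ifs <;> norm_num) (mem_univ a)

theorem ein_zero (s t : A → V) (U : Set V) (h : ∀ a, t a ∈ U → s a ∈ U) : ein s t U = 0 := by
  unfold ein
  exact sum_eq_zero fun a _ => if_neg fun h1 => h1.2 (h a h1.1)

theorem eout_zero (s t : A → V) (U : Set V) (h : ∀ a, s a ∈ U → t a ∈ U) : eout s t U = 0 := by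
  unfold eout
  exact sum_eq_zero fun a _ => if_neg fun h1 => h1.2 (h a h1.1)

end lc

/-- (LC') implies (P_sh). -/
theorem psh_of_lc (k : ℕ) (H : LCPairing k) : PshPairing k := by
  intro V A _ _ s t hd
  -- weights
  let h : V → V → ℤ := fun u v => (1 + k) * mlt s t u v
  let b : V → ℤ := fun v => k * bal' s t v
  have hh : ∀ X, hx h X = (1 + k) * dd s t X := fun X => by
    rw [hx_mul, hx_mlt]
  have hb : ∀ X, xs b X = k * (ein s t X - eout s t X) := fun X => by
    rw [← xs_bal_eq]
    unfold xs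
    rw [mul_sum]
    refine sum_congr rfl fun v _ => ?_
    split_ifs
    · rfl
    · ring
  have hk0 : (0 : ℤ) ≤ k := by positivity
  -- the basic formula
  have key : ∀ X, hx h X - |xs b X| = dd s t X + 2 * k * min (ein s t X) (eout s t X) := by
    intro X
    rw [hh, hb, abs_mul, abs_of_nonneg hk0, dd_eq]
    rcases le_total (ein s t X) (eout s t X) with h1 | h1
    · rw [min_eq_left h1, abs_of_nonpos (by linarith)]
      ring
    · rw [min_eq_right h1, abs_of_nonneg (by linarith)]
      ring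
  have hmin : ∀ X, 0 ≤ min (ein s t X) (eout s t X) := fun X =>
    le_min (ein_nn s t X) (eout_nn s t X)
  obtain ⟨μ, hμ⟩ := H V h b
    { symm := fun u v => by
        simp only [h]
        rw [mlt_symm]
      nn := fun u v => mul_nonneg (by linarith) (mlt_nn s t u v)
      tot := by
        rw [hb]
        have h1 : ein s t Set.univ = 0 := ein_zero s t _ fun a _ => Set.mem_univ _
        have h2 : eout s t Set.univ = 0 := eout_zero s t _ fun a _ => Set.mem_univ _
        rw [h1, h2]
        ring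
      cut := by
        intro X hX hXc
        have h1 := key X
        have h2 := hmin X
        by_cases hS : Sh s t X
        · have h3 : (2 * k : ℤ) ≤ dd s t X := by exact_mod_cast hd X hX hXc hS
          have h4 : 0 ≤ 2 * (k : ℤ) * min (ein s t X) (eout s t X) := by positivity
          linarith
        · unfold Sh at hS
          push Not at hS
          obtain ⟨⟨a, ha⟩, ⟨c, hc⟩⟩ := hS
          have h3 : 1 ≤ ein s t X := ein_pos s t X fun h => ha.2 (h a ha.1)
          have h4 : 1 ≤ eout s t X := eout_pos s t X fun h => hc.2 (h c hc.1)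
          have h5 : 1 ≤ min (ein s t X) (eout s t X) := le_min h3 h4
          have h6 : (0 : ℤ) ≤ dd s t X := by positivity
          nlinarith
      scut := by
        intro X hX hXc
        have h1 := key X
        have h2 := hmin X
        have h3 : sx h X = sx (mlt s t) X := sx_mul _ (by linarith) _ X
        have h4 : sx (mlt s t) X ≤ hx (mlt s t) X := sx_le_hx _ (mlt_nn s t) X
        rw [hx_mlt] at h4
        have h5 : 0 ≤ 2 * (k : ℤ) * min (ein s t X) (eout s t X) := by positivity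
        rw [h3]
        linarith }
  refine ⟨μ, hμ.invol, fun u => ?_, fun U hU hUc hS => ?_⟩
  · rw [hμ.odd u, hh]
    have h1 : b u = k * (ein s t {u} - eout s t {u}) := by
      rw [← hb, xs_singleton]
    have h2 : (1 + (k : ℤ)) * dd s t {u} + b u = dd s t {u} + 2 * (k * ein s t {u}) := by
      rw [h1, dd_eq]
      ring
    rw [h2]
    rw [Int.odd_add]
    have h3 : Even (2 * (k * ein s t {u})) := even_two_mul _
    have h4 : Odd ((dd s t {u} : ℕ) : ℤ) ↔ Odd (dd s t {u}) := Int.odd_coe_nat _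
    rw [h4]
    tauto
  · have h1 := hμ.bd U hU hUc
    have h2 := key U
    have h3 : min (ein s t U) (eout s t U) = 0 := by
      rcases hS with hS | hS
      · rw [ein_zero s t U hS]
        exact min_eq_left (eout_nn s t U)
      · rw [eout_zero s t U hS]
        exact min_eq_right (ein_nn s t U)
    rw [h3] at h2
    zify
    linarith

/-- (LC') implies the statement of the problem for `k`. -/
theorem dijoins_of_lc (k : ℕ) (H : LCPairing k) (V E : Type) [Fintype V] [Fintype E]
    (tail head : E → V)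
    (h : ∀ U : Set V, U.Nonempty → U ≠ Set.univ → (∀ e, ¬ (head e ∈ U ∧ tail e ∉ U)) →
      2 * k ≤ {e : E | tail e ∈ U ∧ head e ∉ U}.ncard) :
    ∃ J₁ J₂ : Finset E, Disjoint J₁ J₂ ∧
      ∀ U : Set V, U.Nonempty → U ≠ Set.univ → (∀ e, ¬ (head e ∈ U ∧ tail e ∉ U)) →
        k ≤ {e : E | e ∈ J₁ ∧ tail e ∈ U ∧ head e ∉ U}.ncard ∧
        k ≤ {e : E | e ∈ J₂ ∧ tail e ∈ U ∧ head e ∉ U}.ncard :=
  dijoins_of_psh k (psh_of_lc k H) V E tail head h

end LC9e
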